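import Mathlib

/-!
# The matrix of the multiplication by a sparse number
-/

set_option autoImplicit false

namespace Pool.Agent.K6.H50.SMU

open Finset

/-- The determinant is at most the product of the sums of the columns. -/
theorem det_le_prod {n : Type*} [Fintype n] [DecidableEq n] (M : Matrix n n ℤ) :
    |M.det| ≤ ∏ j, ∑ i, |M i j| := by
  classical
  rw [Matrix.det_apply]
  refine (Finset.abs_sum_le_sum_abs _ _).trans ?_
  have h1 : ∀ σ : Equiv.Perm n, |Equiv.Perm.sign σ • ∏ i, M (σ i) i| = ∏ i, |M (σ i) i| := by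
    intro σ
    rw [Units.smul_def, smul_eq_mul, abs_mul, Finset.abs_prod]
    rcases Int.units_eq_one_or (Equiv.Perm.sign σ) with h | h <;> simp [h]
  rw [Finset.sum_congr rfl fun σ _ => h1 σ, Finset.prod_univ_sum]
  have h2 : ∑ σ : Equiv.Perm n, ∏ i, |M (σ i) i| =
      ∑ f ∈ Finset.univ.image (fun σ : Equiv.Perm n => (σ : n → n)), ∏ i, |M (f i) i| := by
    rw [Finset.sum_image]
    intro a _ b _ hab
    exact DFunLike.coe_injective hab
  rw [h2]
  refine Finset.sum_le_sum_of_subset_of_nonneg ?_ fun f _ _ =>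
    Finset.prod_nonneg fun i _ => abs_nonneg _
  intro f _
  simp

section

variable (g N q c : ℕ) (S : Finset ℕ) (u : ℕ → ℤ) (α : ℕ → ℕ)

/-- The exponent of `g`. -/
def ex (a j : ℕ) : ℤ :=
  c + a + (j * N / q : ℕ) - ((α a + j) / q : ℕ) * N - (((α a + j) % q) * N / q : ℕ)

/-- The matrix. -/
def mat : Matrix (Fin q) (Fin q) ℤ := fun i j =>
  ∑ a ∈ S, if (α a + j) % q = i then u a * (-1) ^ ((α a + j) / q) * (g : ℤ) ^ (ex N q c α a j).toNat
    else 0

end

theorem ex_bounds {N q e : ℕ} {α : ℕ → ℕ} (hq : 0 < q) {a : ℕ}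
    (ha : |(q : ℤ) * a - α a * N| ≤ e) (j : ℕ) :
    0 ≤ ex N q (e / q + 1) α a j ∧ ex N q (e / q + 1) α a j ≤ 2 * ((e / q + 1 : ℕ) : ℤ) := by
  obtain ⟨A, hA⟩ : ∃ A, A = j * N / q := ⟨_, rfl⟩
  obtain ⟨m, hm⟩ : ∃ m, m = (α a + j) / q := ⟨_, rfl⟩
  obtain ⟨r, hr⟩ : ∃ r, r = (α a + j) % q := ⟨_, rfl⟩
  obtain ⟨B, hB⟩ : ∃ B, B = r * N / q := ⟨_, rfl⟩
  obtain ⟨c, hc⟩ : ∃ c, c = e / q + 1 := ⟨_, rfl⟩
  have hex : ex N q (e / q + 1) α a j = c + a + A - m * N - B := by
    unfold ex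
    rw [← hc, ← hA, ← hm, ← hr, ← hB]
  rw [hex, ← hc]
  have h1 : q * m + r = α a + j := by rw [hm, hr]; exact Nat.div_add_mod _ _
  have a1 : q * A ≤ j * N := by rw [hA]; exact Nat.mul_div_le _ _
  have a2 : j * N < q * A + q := by
    have := Nat.lt_mul_div_succ (j * N) hq
    rw [← hA] at this
    linarith
  have b1 : q * B ≤ r * N := by rw [hB]; exact Nat.mul_div_le _ _
  have b2 : r * N < q * B + q := by
    have := Nat.lt_mul_div_succ (r * N) hq
    rw [← hB] at this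
    linarith
  have c1 : e < q * c := by
    rw [hc]
    have := Nat.lt_mul_div_succ e hq
    linarith
  obtain ⟨d1, d2⟩ := abs_le.1 ha
  have h1' : (q : ℤ) * m + r = α a + j := by exact_mod_cast h1
  have h2 : (q : ℤ) * m * N + r * N = α a * N + j * N := by linear_combination (N : ℤ) * h1'
  have a1' : (q : ℤ) * A ≤ j * N := by exact_mod_cast a1
  have a2' : (j : ℤ) * N < q * A + q := by exact_mod_cast a2
  have b1' : (q : ℤ) * B ≤ r * N := by exact_mod_cast b1
  have b2' : (r : ℤ) * N < q * B + q := by exact_mod_cast b2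
  have c1' : (e : ℤ) < q * c := by exact_mod_cast c1
  have hq' : (0 : ℤ) < q := by exact_mod_cast hq
  have e1 : (q : ℤ) * (c + a + A - m * N - B) = q * c + q * a + q * A - q * m * N - q * B := by ring
  constructor
  · by_contra hcon
    have h3 : (c : ℤ) + a + A - m * N - B ≤ -1 := by omega
    have h4 := mul_le_mul_of_nonneg_left h3 hq'.le
    rw [e1] at h4
    linarith
  · by_contra hcon
    have h3 : 2 * (c : ℤ) + 1 ≤ (c : ℤ) + a + A - m * N - B := by omega
    have h4 := mul_le_mul_of_nonneg_left h3 hq'.le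
    rw [e1] at h4
    have e2 : (q : ℤ) * (2 * c + 1) = 2 * (q * c) + q := by ring
    rw [e2] at h4
    linarith

/-- The action of the matrix on the vector of the powers. -/
theorem key {g N q e : ℕ} {S : Finset ℕ} {u : ℕ → ℤ} {α : ℕ → ℕ} (hq : 0 < q)
    (ha : ∀ a ∈ S, |(q : ℤ) * a - α a * N| ≤ e) {R : Type*} [CommRing R] (θ : R)
    (hθ : (g : R) ^ N * θ ^ q = -1) (j : Fin q) :
    ∑ i : Fin q, ((mat g N q (e / q + 1) S u α i j : ℤ) : R) * (g : R) ^ ((i : ℕ) * N / q) *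
      θ ^ (i : ℕ) = (g : R) ^ (e / q + 1 + j * N / q) * θ ^ (j : ℕ) *
        ∑ a ∈ S, (u a : R) * (g : R) ^ a * θ ^ (α a) := by
  unfold mat
  have h1 : ∀ i : Fin q, ((∑ a ∈ S, (if (α a + j) % q = i then
      u a * (-1) ^ ((α a + j) / q) * (g : ℤ) ^ (ex N q (e / q + 1) α a j).toNat else 0) : ℤ) : R) *
        (g : R) ^ ((i : ℕ) * N / q) * θ ^ (i : ℕ) =
      ∑ a ∈ S, if (α a + j) % q = i then (u a : R) * (-1) ^ ((α a + j) / q) *
        (g : R) ^ (ex N q (e / q + 1) α a j).toNat * (g : R) ^ (((α a + j) % q) * N / q) *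
          θ ^ ((α a + j) % q) else 0 := by
    intro i
    push_cast
    rw [Finset.sum_mul, Finset.sum_mul]
    refine Finset.sum_congr rfl fun a _ => ?_
    split_ifs with h
    · rw [h]
    · ring
  rw [Finset.sum_congr rfl fun i _ => h1 i, Finset.sum_comm, Finset.mul_sum]
  refine Finset.sum_congr rfl fun a haS => ?_
  have h2 : (α a + j) % q < q := Nat.mod_lt _ hq
  rw [Finset.sum_eq_single (⟨(α a + j) % q, h2⟩ : Fin q)]
  · rw [if_pos rfl]
    obtain ⟨x, hx⟩ : ∃ x, x = (ex N q (e / q + 1) α a j).toNat := ⟨_, rfl⟩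
    obtain ⟨m, hm⟩ : ∃ m, m = (α a + j) / q := ⟨_, rfl⟩
    obtain ⟨r, hr⟩ : ∃ r, r = (α a + j) % q := ⟨_, rfl⟩
    have h0 := (ex_bounds hq (ha a haS) j).1
    have hx' : (x : ℤ) = ex N q (e / q + 1) α a j := by rw [hx]; exact Int.toNat_of_nonneg h0
    have h3 : q * m + r = α a + j := by rw [hm, hr]; exact Nat.div_add_mod _ _
    have h4 : x + r * N / q + m * N = (e / q + 1) + a + j * N / q := by
      unfold ex at hx'
      rw [← hm, ← hr] at hx'
      have h5 : ((x + r * N / q + m * N : ℕ) : ℤ) = (((e / q + 1) + a + j * N / q : ℕ) : ℤ) := by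
        push_cast at hx' ⊢
        linarith
      exact_mod_cast h5
    rw [← hx, ← hm, ← hr]
    have h6 : (g : R) ^ (e / q + 1 + j * N / q) * θ ^ (j : ℕ) * ((u a : R) * (g : R) ^ a *
        θ ^ α a) = (u a : R) * ((g : R) ^ ((e / q + 1) + a + j * N / q) * θ ^ (α a + j)) := by
      rw [pow_add θ, pow_add _ (e / q + 1) (j * N / q), pow_add _ (e / q + 1 + a),
        pow_add _ (e / q + 1) a]
      ring
    rw [h6, ← h4, ← h3, pow_add _ (x + r * N / q), pow_add θ, pow_mul θ q m, pow_add _ x,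
      mul_comm m N, pow_mul (g : R) N m]
    have h7 : ((g : R) ^ N) ^ m * (θ ^ q) ^ m = (-1) ^ m := by rw [← mul_pow, hθ]
    linear_combination (-(u a : R) * (g : R) ^ x * (g : R) ^ (r * N / q) * θ ^ r) * h7
  · intro b _ hb
    rw [if_neg]
    intro h
    exact hb (Fin.ext h.symm)
  · intro h
    exact absurd (Finset.mem_univ _) h

end Pool.Agent.K6.H50.SMU
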