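import Pool.Agent.K6.H50.SMU.Det
import Pool.Agent.K6.H50.SPF.Main

/-!
# Common divisors of sparse numbers and `g ^ N + 1`
-/

set_option autoImplicit false

namespace Pool.Agent.K6.H50.SMU

open Polynomial Finset
open Pool.Agent.K6.H50.SPF (val wt Exc irr_nat)

/-- Every common divisor divides the determinant. -/
theorem dvd_det {g N q e : ℕ} {S : Finset ℕ} {u : ℕ → ℤ} {α : ℕ → ℕ} (hq : 0 < q)
    (ha : ∀ a ∈ S, |(q : ℤ) * a - α a * N| ≤ e) {d : ℕ} (h1 : (d : ℤ) ∣ val g S u)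
    (h2 : (d : ℤ) ∣ (g : ℤ) ^ N + 1) : (d : ℤ) ∣ (mat g N q (e / q + 1) S u α).det := by
  rw [← ZMod.intCast_zmod_eq_zero_iff_dvd] at h1 h2 ⊢
  have hθ : ((g : ℕ) : ZMod d) ^ N * (1 : ZMod d) ^ q = -1 := by
    rw [one_pow, mul_one]
    push_cast at h2
    linear_combination h2
  set M := mat g N q (e / q + 1) S u α with hM
  set M' : Matrix (Fin q) (Fin q) (ZMod d) := (Int.castRingHom (ZMod d)).mapMatrix M with hM'
  set r : Fin q → ZMod d := fun i => (g : ZMod d) ^ ((i : ℕ) * N / q) with hr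
  have h3 : Matrix.vecMul r M' = 0 := by
    funext j
    have h4 := key (g := g) (u := u) hq ha (1 : ZMod d) hθ j
    have h5 : ∑ a ∈ S, (u a : ZMod d) * (g : ZMod d) ^ a * 1 ^ (α a) = 0 := by
      unfold Pool.Agent.K6.H50.SPF.val at h1
      push_cast at h1
      simpa using h1
    rw [h5, mul_zero] at h4
    rw [Pi.zero_apply, ← h4, Matrix.vecMul, dotProduct]
    refine Finset.sum_congr rfl fun i _ => ?_
    simp only [hr, hM', hM, RingHom.mapMatrix_apply, Matrix.map_apply, eq_intCast, one_pow, mul_one]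
    ring
  have h4 : Matrix.vecMul r (M' * M'.adjugate) = 0 := by
    rw [← Matrix.vecMul_vecMul, h3, Matrix.zero_vecMul]
  rw [Matrix.mul_adjugate, Matrix.vecMul_smul, Matrix.vecMul_one] at h4
  have h5 := congrFun h4 ⟨0, hq⟩
  simp only [Pi.smul_apply, Pi.zero_apply, smul_eq_mul, hr, zero_mul, Nat.zero_div, pow_zero,
    mul_one] at h5
  rw [hM', ← RingHom.map_det] at h5
  exact h5

theorem prim {A : ℤ} {q : ℕ} (hq : q ≠ 0) : (C A * X ^ q + 1 : ℤ[X]).IsPrimitive := by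
  intro r hr
  rw [C_dvd_iff_dvd_coeff] at hr
  have h1 := hr 0
  rw [coeff_add, coeff_C_mul, coeff_X_pow, if_neg hq.symm, mul_zero, zero_add, coeff_one_zero] at h1
  exact isUnit_of_dvd_one h1

/-- If the determinant vanishes then `g ^ N + 1` divides the sparse number. -/
theorem dvd_of_det {g N q e : ℕ} {S : Finset ℕ} {u : ℕ → ℤ} {α : ℕ → ℕ} (hg : 2 ≤ g) (hq : 0 < q)
    (ha : ∀ a ∈ S, |(q : ℤ) * a - α a * N| ≤ e)
    (hirr : Irreducible (X ^ q - C (-(1 / ((g ^ N : ℕ) : ℚ))) : ℚ[X]))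
    (h0 : (mat g N q (e / q + 1) S u α).det = 0) : (g : ℤ) ^ N + 1 ∣ val g S u := by
  obtain ⟨v, hv, hMv⟩ := Matrix.exists_mulVec_eq_zero_iff.2 h0
  set f : ℚ[X] := X ^ q - C (-(1 / ((g ^ N : ℕ) : ℚ))) with hf
  have : Fact (Irreducible f) := ⟨hirr⟩
  set θ := AdjoinRoot.root f with hθ
  have hA : (((g ^ N : ℕ) : ℚ)) ≠ 0 := by
    have : 0 < g ^ N := pow_pos (by omega) N
    exact_mod_cast this.ne'
  have hroot : θ ^ q = AdjoinRoot.of f (-(1 / ((g ^ N : ℕ) : ℚ))) := by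
    have h1 : AdjoinRoot.mk f (X ^ q - C (-(1 / ((g ^ N : ℕ) : ℚ)))) = 0 := by
      rw [← hf]
      exact AdjoinRoot.mk_self
    rw [map_sub, map_pow, AdjoinRoot.mk_X, AdjoinRoot.mk_C] at h1
    exact sub_eq_zero.1 h1
  have hθ' : ((g : ℕ) : AdjoinRoot f) ^ N * θ ^ q = -1 := by
    rw [hroot]
    have h1 : ((g : ℕ) : AdjoinRoot f) ^ N = AdjoinRoot.of f ((g ^ N : ℕ) : ℚ) := by
      rw [map_natCast]
      push_cast
      rfl
    rw [h1, ← map_mul]
    have h2 : ((g ^ N : ℕ) : ℚ) * -(1 / ((g ^ N : ℕ) : ℚ)) = -1 := by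
      rw [mul_neg, mul_one_div_cancel hA]
    rw [h2, map_neg, map_one]
  -- the polynomials
  set D : ℤ[X] := ∑ a ∈ S, C (u a * (g : ℤ) ^ a) * X ^ α a with hD
  set P : ℚ[X] := ∑ j : Fin q, C ((v j : ℚ) * (g : ℚ) ^ ((j : ℕ) * N / q)) * X ^ (j : ℕ) with hP
  have hDθ : AdjoinRoot.mk f (D.map (Int.castRingHom ℚ)) =
      ∑ a ∈ S, (u a : AdjoinRoot f) * (g : AdjoinRoot f) ^ a * θ ^ (α a) := by
    rw [hD, Polynomial.map_sum, map_sum]
    refine Finset.sum_congr rfl fun a _ => ?_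
    simp [hθ]
  have hPθ : AdjoinRoot.mk f P =
      ∑ j : Fin q, (v j : AdjoinRoot f) * (g : AdjoinRoot f) ^ ((j : ℕ) * N / q) * θ ^ (j : ℕ) := by
    rw [hP, map_sum]
    refine Finset.sum_congr rfl fun j _ => ?_
    simp [hθ]
  have hprod : (g : AdjoinRoot f) ^ (e / q + 1) * (AdjoinRoot.mk f (D.map (Int.castRingHom ℚ)) *
      AdjoinRoot.mk f P) = 0 := by
    have h1 : ∑ j : Fin q, (v j : AdjoinRoot f) * ((g : AdjoinRoot f) ^ (e / q + 1 + j * N / q) *
        θ ^ (j : ℕ) * ∑ a ∈ S, (u a : AdjoinRoot f) * (g : AdjoinRoot f) ^ a * θ ^ (α a)) =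
        (g : AdjoinRoot f) ^ (e / q + 1) * (AdjoinRoot.mk f (D.map (Int.castRingHom ℚ)) *
          AdjoinRoot.mk f P) := by
      rw [hDθ, hPθ, Finset.mul_sum, Finset.mul_sum]
      refine Finset.sum_congr rfl fun j _ => ?_
      rw [pow_add]
      ring
    rw [← h1]
    have h2 : ∀ j : Fin q, (v j : AdjoinRoot f) * ((g : AdjoinRoot f) ^ (e / q + 1 + j * N / q) *
        θ ^ (j : ℕ) * ∑ a ∈ S, (u a : AdjoinRoot f) * (g : AdjoinRoot f) ^ a * θ ^ (α a)) =
        ∑ i : Fin q, ((mat g N q (e / q + 1) S u α i j * v j : ℤ) : AdjoinRoot f) *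
          (g : AdjoinRoot f) ^ ((i : ℕ) * N / q) * θ ^ (i : ℕ) := by
      intro j
      rw [← key hq ha θ hθ' j, Finset.mul_sum]
      refine Finset.sum_congr rfl fun i _ => ?_
      push_cast
      ring
    rw [Finset.sum_congr rfl fun j _ => h2 j, Finset.sum_comm]
    refine Finset.sum_eq_zero fun i _ => ?_
    have h3 : ∑ j : Fin q, mat g N q (e / q + 1) S u α i j * v j = 0 := by
      have := congrFun hMv i
      rwa [Matrix.mulVec, dotProduct, Pi.zero_apply] at this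
    rw [← Finset.sum_mul, ← Finset.sum_mul, ← Int.cast_sum, h3, Int.cast_zero, zero_mul, zero_mul]
  have hgne : (g : AdjoinRoot f) ^ (e / q + 1) ≠ 0 := by
    refine pow_ne_zero _ ?_
    have h1 : ((g : ℕ) : AdjoinRoot f) = AdjoinRoot.of f (g : ℚ) := by rw [map_natCast]
    rw [h1]
    intro h2
    have h3 : (g : ℚ) = 0 := (AdjoinRoot.of f).injective (by rw [h2, map_zero])
    have h4 : g = 0 := by exact_mod_cast h3
    omega
  rcases mul_eq_zero.1 ((mul_eq_zero.1 hprod).resolve_left hgne) with h | h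
  · -- the sparse polynomial is divisible
    have h1 : f ∣ D.map (Int.castRingHom ℚ) := AdjoinRoot.mk_eq_zero.1 h
    have h2 : (C ((g ^ N : ℕ) : ℤ) * X ^ q + 1 : ℤ[X]).map (Int.castRingHom ℚ) =
        C ((g ^ N : ℕ) : ℚ) * f := by
      rw [hf, mul_sub, ← C_mul, mul_neg, mul_one_div_cancel hA]
      simp
    have h3 : (C ((g ^ N : ℕ) : ℤ) * X ^ q + 1 : ℤ[X]) ∣ D := by
      refine (IsPrimitive.Int.dvd_iff_map_cast_dvd_map_cast _ D (prim hq.ne')).2 ?_
      rw [h2]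
      exact ((isUnit_C.2 (isUnit_iff_ne_zero.2 hA)).mul_left_dvd).2 h1
    have h4 := Polynomial.eval_dvd (x := (1 : ℤ)) h3
    rw [hD, eval_finsetSum] at h4
    unfold Pool.Agent.K6.H50.SPF.val
    simpa using h4
  · -- a polynomial of smaller degree
    exfalso
    have h1 : f ∣ P := AdjoinRoot.mk_eq_zero.1 h
    have hdeg : P.natDegree < q := by
      refine lt_of_le_of_lt (natDegree_sum_le_of_forall_le (n := q - 1) _ _ fun j _ => ?_) (by omega)
      refine (natDegree_C_mul_X_pow_le _ _).trans ?_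
      have := j.2
      omega
    have hfdeg : f.natDegree = q := by rw [hf]; exact natDegree_X_pow_sub_C
    have hP0 : P = 0 := by
      by_contra hne
      have := natDegree_le_of_dvd h1 hne
      omega
    apply hv
    funext j
    have h2 : P.coeff (j : ℕ) = (v j : ℚ) * (g : ℚ) ^ ((j : ℕ) * N / q) := by
      rw [hP, finsetSum_coeff, Finset.sum_eq_single j]
      · rw [coeff_C_mul_X_pow, if_pos rfl]
      · intro i _ hij
        rw [coeff_C_mul_X_pow, if_neg]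
        intro h3
        exact hij (Fin.ext h3.symm)
      · intro h3
        exact absurd (Finset.mem_univ _) h3
    rw [hP0, coeff_zero] at h2
    have h3 : (g : ℚ) ^ ((j : ℕ) * N / q) ≠ 0 := by
      have : (g : ℚ) ≠ 0 := by exact_mod_cast (by omega : g ≠ 0)
      exact pow_ne_zero _ this
    have h4 := (mul_eq_zero.1 h2.symm).resolve_right h3
    rw [Pi.zero_apply]
    exact_mod_cast h4

/-- The size of the determinant. -/
theorem det_le {g N q e : ℕ} {S : Finset ℕ} {u : ℕ → ℤ} {α : ℕ → ℕ} (hg : 2 ≤ g) (hq : 0 < q)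
    (ha : ∀ a ∈ S, |(q : ℤ) * a - α a * N| ≤ e) :
    |(mat g N q (e / q + 1) S u α).det| ≤ wt S u ^ q * (g : ℤ) ^ (2 * (e + q)) := by
  have hg1 : (1 : ℤ) ≤ g := by exact_mod_cast (by omega : 1 ≤ g)
  have hw : 0 ≤ wt S u := Pool.Agent.K6.H50.SPF.wt_nonneg S u
  have h1 : ∀ j : Fin q, ∑ i, |mat g N q (e / q + 1) S u α i j| ≤
      wt S u * (g : ℤ) ^ (2 * (e / q + 1)) := by
    intro j
    have h2 : ∀ i : Fin q, |mat g N q (e / q + 1) S u α i j| ≤
        ∑ a ∈ S, if (α a + j) % q = i then |u a| * (g : ℤ) ^ (2 * (e / q + 1)) else 0 := by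
      intro i
      unfold mat
      refine (Finset.abs_sum_le_sum_abs _ _).trans (Finset.sum_le_sum fun a haS => ?_)
      split_ifs with h
      · rw [abs_mul, abs_mul, abs_pow, abs_pow, abs_neg, abs_one, one_pow, mul_one, Nat.abs_cast]
        refine mul_le_mul_of_nonneg_left (pow_le_pow_right₀ hg1 ?_) (abs_nonneg _)
        have := ex_bounds hq (ha a haS) j
        omega
      · simp
    refine (Finset.sum_le_sum fun i _ => h2 i).trans ?_
    rw [Finset.sum_comm]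
    unfold wt
    rw [Finset.sum_mul]
    refine Finset.sum_le_sum fun a _ => ?_
    have h3 : (α a + j) % q < q := Nat.mod_lt _ hq
    rw [Finset.sum_eq_single (⟨(α a + j) % q, h3⟩ : Fin q)]
    · rw [if_pos rfl]
    · intro b _ hb
      rw [if_neg]
      intro h
      exact hb (Fin.ext h.symm)
    · intro h
      exact absurd (Finset.mem_univ _) h
  refine (det_le_prod _).trans ((Finset.prod_le_prod (fun j _ =>
    Finset.sum_nonneg fun i _ => abs_nonneg _) fun j _ => h1 j).trans ?_)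
  rw [Finset.prod_const, Finset.card_univ, Fintype.card_fin, mul_pow, ← pow_mul]
  refine mul_le_mul_of_nonneg_left (pow_le_pow_right₀ hg1 ?_) (pow_nonneg hw q)
  have h2 : e / q * q ≤ e := Nat.div_mul_le_self e q
  calc 2 * (e / q + 1) * q = 2 * (e / q * q + q) := by ring
    _ ≤ 2 * (e + q) := by omega

/-- The theorem for a given approximation. -/
theorem approx {g N q e : ℕ} {S : Finset ℕ} {u : ℕ → ℤ} {α : ℕ → ℕ} (hg : 2 ≤ g) (hq : 0 < q)
    (ha : ∀ a ∈ S, |(q : ℤ) * a - α a * N| ≤ e)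
    (hirr : Irreducible (X ^ q - C (-(1 / ((g ^ N : ℕ) : ℚ))) : ℚ[X]))
    {d : ℕ} (h1 : (d : ℤ) ∣ val g S u) (h2 : (d : ℤ) ∣ (g : ℤ) ^ N + 1)
    (h3 : ¬ (g : ℤ) ^ N + 1 ∣ val g S u) :
    (d : ℤ) ≤ wt S u ^ q * (g : ℤ) ^ (2 * (e + q)) := by
  have h4 : (mat g N q (e / q + 1) S u α).det ≠ 0 := fun h0 => h3 (dvd_of_det hg hq ha hirr h0)
  have h5 := dvd_det hq ha h1 h2
  exact (Int.le_of_dvd (abs_pos.2 h4) ((dvd_abs _ _).2 h5)).trans (det_le hg hq ha)

/-- Simultaneous approximation. -/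
theorem dir {N H : ℕ} (hN : 0 < N) (hH : 0 < H) (S : Finset ℕ) (h0 : 0 ∈ S) :
    ∃ (q : ℕ) (α : ℕ → ℕ), 1 ≤ q ∧ q ≤ H ^ (S.card - 1) ∧
      ∀ a ∈ S, |(q : ℤ) * a - α a * N| ≤ ((N / H : ℕ) : ℤ) := by
  obtain ⟨q, hq1, hq2, h⟩ := Pool.Agent.N449.SF.dirichlet N H hN hH S h0
  have h' : ∀ a : ℕ, ∃ β : ℕ, a ∈ S → |(q : ℤ) * a - β * N| ≤ ((N / H : ℕ) : ℤ) := by
    intro a
    by_cases ha : a ∈ S
    · obtain ⟨β, hβ⟩ := h a ha
      have hN' : (0 : ℤ) < N := by exact_mod_cast hN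
      have hH' : (0 : ℤ) < H := by exact_mod_cast hH
      have hβ0 : 0 ≤ β := by
        by_contra hcon
        have h1 : β ≤ -1 := by omega
        have h2 : (N : ℤ) ≤ (q : ℤ) * a - β * N := by
          have : (0 : ℤ) ≤ (q : ℤ) * a := by positivity
          nlinarith
        have h3 : (N : ℤ) ≤ |(q : ℤ) * a - β * N| := h2.trans (le_abs_self _)
        nlinarith
      refine ⟨β.toNat, fun _ => ?_⟩
      rw [Int.toNat_of_nonneg hβ0]
      obtain ⟨y, hy⟩ : ∃ y : ℕ, |(q : ℤ) * a - β * N| = y :=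
        ⟨_, Int.abs_eq_natAbs _⟩
      rw [hy] at hβ ⊢
      have h4 : H * y < N := by exact_mod_cast hβ
      have h5 : y ≤ N / H := (Nat.le_div_iff_mul_le hH).2 (by rw [mul_comm]; exact h4.le)
      exact_mod_cast h5
    · exact ⟨0, fun h1 => absurd h1 ha⟩
  choose β hβ using h'
  exact ⟨q, β, hq1, hq2, hβ⟩

/-- The theorem if `0` is a place. -/
theorem main_zero {g N H : ℕ} (hg : 2 ≤ g) (hN : 1 ≤ N) (hH : 1 ≤ H) (S : Finset ℕ) (h0 : 0 ∈ S)
    (u : ℕ → ℤ) (hE : ¬ Exc (g ^ N) (H ^ (S.card - 1))) {d : ℕ} (h1 : (d : ℤ) ∣ val g S u)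
    (h2 : (d : ℤ) ∣ (g : ℤ) ^ N + 1) (h3 : ¬ (g : ℤ) ^ N + 1 ∣ val g S u) :
    (d : ℤ) ≤ wt S u ^ (H ^ (S.card - 1)) * (g : ℤ) ^ (2 * (N / H + H ^ (S.card - 1))) := by
  obtain ⟨q, α, hq1, hq2, ha⟩ := dir hN hH S h0
  have hirr := irr_nat (pow_pos (by omega : 0 < g) N) (by omega : q ≠ 0) hq2 hE
  have h4 := approx hg hq1 ha hirr h1 h2 h3
  have hg1 : (1 : ℤ) ≤ g := by exact_mod_cast (by omega : 1 ≤ g)
  have hw : 1 ≤ wt S u := by
    by_contra hcon
    have h5 : wt S u = 0 := by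
      have := Pool.Agent.K6.H50.SPF.wt_nonneg S u
      omega
    apply h3
    unfold Pool.Agent.K6.H50.SPF.wt at h5
    have h6 := (Finset.sum_eq_zero_iff_of_nonneg fun a _ => abs_nonneg (u a)).1 h5
    have h7 : val g S u = 0 := by
      unfold Pool.Agent.K6.H50.SPF.val
      refine Finset.sum_eq_zero fun a haS => ?_
      rw [abs_eq_zero.1 (h6 a haS), zero_mul]
    rw [h7]
    exact dvd_zero _
  refine h4.trans (mul_le_mul (pow_le_pow_right₀ hw hq2) (pow_le_pow_right₀ hg1 ?_)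
    (by positivity) (by positivity))
  omega

/-- **Theorem.** A common divisor of a sparse number and `g ^ N + 1`. -/
theorem main {g N H : ℕ} (hg : 2 ≤ g) (hN : 1 ≤ N) (hH : 1 ≤ H) (S : Finset ℕ) (u : ℕ → ℤ)
    (hE : ¬ Exc (g ^ N) (H ^ (S.card - 1))) {d : ℕ} (h1 : (d : ℤ) ∣ val g S u)
    (h2 : (d : ℤ) ∣ (g : ℤ) ^ N + 1) (h3 : ¬ (g : ℤ) ^ N + 1 ∣ val g S u) :
    (d : ℤ) ≤ wt S u ^ (H ^ (S.card - 1)) * (g : ℤ) ^ (2 * (N / H + H ^ (S.card - 1))) := by
  rcases S.eq_empty_or_nonempty with hS | hS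
  · exfalso
    apply h3
    rw [hS]
    unfold Pool.Agent.K6.H50.SPF.val
    rw [Finset.sum_empty]
    exact dvd_zero _
  set m := S.min' hS with hm
  have hmin : ∀ a ∈ S, m ≤ a := fun a ha => Finset.min'_le S a ha
  set S' := S.image (fun a => a - m) with hS'
  set u' : ℕ → ℤ := fun b => u (b + m) with hu'
  have hinj : Set.InjOn (fun a => a - m) (S : Set ℕ) := by
    intro a ha b hb hab
    have h4 := hmin a ha
    have h5 := hmin b hb
    simp only at hab
    omega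
  have hcard : S'.card = S.card := Finset.card_image_of_injOn hinj
  have hval : val g S u = (g : ℤ) ^ m * val g S' u' := by
    unfold Pool.Agent.K6.H50.SPF.val
    rw [hS', Finset.sum_image hinj, Finset.mul_sum]
    refine Finset.sum_congr rfl fun a ha => ?_
    have h4 := hmin a ha
    simp only [hu']
    rw [Nat.sub_add_cancel h4]
    have h5 : (g : ℤ) ^ a = (g : ℤ) ^ m * (g : ℤ) ^ (a - m) := by
      rw [← pow_add]
      congr 1
      omega
    rw [h5]
    ring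
  have hwt : wt S' u' = wt S u := by
    unfold Pool.Agent.K6.H50.SPF.wt
    rw [hS', Finset.sum_image hinj]
    refine Finset.sum_congr rfl fun a ha => ?_
    simp only [hu']
    rw [Nat.sub_add_cancel (hmin a ha)]
  have h0 : 0 ∈ S' := by
    rw [hS']
    refine Finset.mem_image.2 ⟨m, Finset.min'_mem S hS, ?_⟩
    simp
  have hcopG : IsCoprime ((g : ℤ) ^ N + 1) (g : ℤ) := by
    obtain ⟨N', rfl⟩ := Nat.exists_eq_add_of_le hN
    refine ⟨1, -(g : ℤ) ^ N', ?_⟩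
    rw [pow_add, pow_one]
    ring
  have hcop : IsCoprime (d : ℤ) ((g : ℤ) ^ m) := (hcopG.of_isCoprime_of_dvd_left h2).pow_right
  rw [hval] at h1 h3
  rw [← hcard, ← hwt]
  rw [← hcard] at hE
  exact main_zero hg hN hH S' h0 u' hE (hcop.dvd_of_dvd_mul_left h1) h2
    (fun h4 => h3 (Dvd.dvd.mul_left h4 _))

end Pool.Agent.K6.H50.SMU
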