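import Pool.Agent.K6.H50.SMU.UIrr

/-!
# Common divisors of Lucas numbers and sums of few Lucas numbers
-/

set_option autoImplicit false

namespace Pool.Agent.K6.H50.SMP

open Finset Pool.Agent.N449.SQ

/-- the coefficients of the number `∑ (z - star z)`, `z = β i * w a i` -/
def bb (a : ℤ) (β : ℕ → R a) : ℕ × Bool → R a :=
  fun k => if k.2 then β k.1 else -(star (β k.1) * (-1) ^ k.1)

/-- the exponents -/
def xx : ℕ × Bool → ℤ := fun k => if k.2 then (k.1 : ℤ) else -(k.1 : ℤ)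

theorem sum_bb (a : ℤ) (S : Finset ℕ) (β : ℕ → R a) :
    ∑ k ∈ S ×ˢ (Finset.univ : Finset Bool), bb a β k * w a (xx k) =
      ((∑ i ∈ S, (β i * w a i).im : ℤ) : R a) * dl a := by
  rw [Finset.sum_product]
  push_cast
  rw [Finset.sum_mul]
  refine Finset.sum_congr rfl fun i _ => ?_
  rw [Fintype.sum_bool, ← sub_star', star_mul', star_w]
  simp only [bb, xx, if_true]
  simp
  ring

theorem sum_hs (a : ℤ) (S : Finset ℕ) (β : ℕ → R a) (s : R a →+* ℝ)
    (hs' : ∀ z, |s z| ≤ hs a z) :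
    ∑ k ∈ S ×ˢ (Finset.univ : Finset Bool), |s (bb a β k)| ≤ 2 * ∑ i ∈ S, hs a (β i) := by
  rw [Finset.sum_product, Finset.mul_sum]
  refine Finset.sum_le_sum fun i _ => ?_
  rw [Fintype.sum_bool]
  simp only [bb, if_true]
  have h1 : |s (-(star (β i) * (-1) ^ i))| = |s (star (β i))| := by
    rw [map_neg, abs_neg, map_mul, abs_mul, map_pow, map_neg, map_one, abs_pow, abs_neg, abs_one,
      one_pow, mul_one]
  have h2 : |s (star (β i))| ≤ hs a (β i) := by
    rw [← hs_star]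
    exact hs' _
  have h3 := hs' (β i)
  simp only [Bool.false_eq_true, if_false]
  rw [h1]
  linarith

/-- Simultaneous approximation. -/
theorem dir {N H : ℕ} (hN : 0 < N) (hH : 0 < H) (S : Finset ℕ) :
    ∃ (q : ℕ) (α : ℕ × Bool → ℤ), 1 ≤ q ∧ q ≤ H ^ S.card ∧
      ∀ k ∈ S ×ˢ (Finset.univ : Finset Bool), |(q : ℤ) * xx k - α k * N| ≤ ((N / H : ℕ) : ℤ) := by
  obtain ⟨q, hq1, hq2, h⟩ := Pool.Agent.N449.SF.dirichlet N H hN hH (insert 0 S)
    (Finset.mem_insert_self _ _)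
  have h' : ∀ i : ℕ, ∃ β : ℤ, i ∈ S → |(q : ℤ) * i - β * N| ≤ ((N / H : ℕ) : ℤ) := by
    intro i
    by_cases hi : i ∈ S
    · obtain ⟨β, hβ⟩ := h i (Finset.mem_insert_of_mem hi)
      refine ⟨β, fun _ => ?_⟩
      obtain ⟨y, hy⟩ : ∃ y : ℕ, |(q : ℤ) * i - β * N| = y := ⟨_, Int.abs_eq_natAbs _⟩
      rw [hy] at hβ ⊢
      have h4 : H * y < N := by exact_mod_cast hβ
      have h5 : y ≤ N / H := (Nat.le_div_iff_mul_le hH).2 (by rw [mul_comm]; exact h4.le)
      exact_mod_cast h5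
    · exact ⟨0, fun h1 => absurd h1 hi⟩
  choose β hβ using h'
  refine ⟨q, fun k => if k.2 then β k.1 else -β k.1, hq1, ?_, ?_⟩
  · refine hq2.trans (Nat.pow_le_pow_right hH ?_)
    have := Finset.card_insert_le 0 S
    omega
  · rintro ⟨i, s⟩ hk
    have hi : i ∈ S := (Finset.mem_product.1 hk).1
    have h1 := hβ i hi
    cases s
    · simp only [xx, Bool.false_eq_true, if_false]
      have e1 : (q : ℤ) * -(i : ℤ) - -β i * N = -((q : ℤ) * i - β i * N) := by ring
      rw [e1, abs_neg]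
      exact h1
    · simpa only [xx, if_true] using h1

theorem abs_s₁_w (a y : ℤ) (ha : 1 ≤ a) : |s₁ a (w a y)| ≤ eps a ^ |y| := by
  rw [s₁_w, abs_of_pos (zpow_pos (eps_pos a) _)]
  exact zpow_le_zpow_right₀ (one_lt_eps ha).le (le_abs_self y)

theorem abs_s₂_w' (a y : ℤ) (ha : 1 ≤ a) : |s₂ a (w a y)| ≤ eps a ^ |y| := by
  rw [abs_s₂_w]
  exact zpow_le_zpow_right₀ (one_lt_eps ha).le (neg_le_abs y)

section

variable {a : ℤ} (ha : 1 ≤ a) (hV : ∀ (T : ℤ) (r : ℕ), 1 ≤ T → 2 ≤ r → Odd r → V T r ≠ a)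
  {p : ℕ} (hp : p.Prime) (hp2 : p ≠ 2) (S : Finset ℕ) (β : ℕ → R a)

theorem one_le_sum (ha : 1 ≤ a) (h : ∑ i ∈ S, (β i * w a i).im ≠ 0) :
    1 ≤ ∑ i ∈ S, hs a (β i) := by
  obtain ⟨i, hi, hne⟩ := Finset.exists_ne_zero_of_sum_ne_zero h
  have hβ : β i ≠ 0 := by
    rintro h0
    apply hne
    rw [h0, zero_mul]
    rfl
  have h1 := one_le_abs ha hβ
  have h2 : |s₁ a (β i)| ≤ hs a (β i) := le_max_left _ _
  have h3 : |s₂ a (β i)| ≤ hs a (β i) := le_max_right _ _
  have h4 : 1 ≤ hs a (β i) * hs a (β i) :=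
    h1.trans (mul_le_mul h2 h3 (abs_nonneg _) (hs_nonneg a _))
  have h5 : 1 ≤ hs a (β i) := by
    have := hs_nonneg a (β i)
    nlinarith
  exact h5.trans (Finset.single_le_sum (f := fun i => hs a (β i)) (fun _ _ => hs_nonneg a _) hi)

theorem dl_ne_zero (a : ℤ) : dl a ≠ 0 := by
  intro h
  have := congrArg QuadraticAlgebra.im h
  simp [dl] at this

include ha hV hp hp2

/-- Common divisors with `U_p`. -/
theorem finalU {H d : ℕ} (hH : 1 ≤ H) (hHp : H ^ S.card < p) (hd1 : (d : ℤ) ∣ U a p)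
    (hd2 : (d : ℤ) ∣ ∑ i ∈ S, (β i * w a i).im) (hn : ¬ U a p ∣ ∑ i ∈ S, (β i * w a i).im) :
    (d : ℝ) ≤ (2 * ∑ i ∈ S, hs a (β i)) ^ (H ^ S.card) * eps a ^ (2 * p / H + H ^ S.card) := by
  have hdom := isDomain ha
  have hpo : Odd p := hp.odd_of_ne_two hp2
  have he1 := one_lt_eps ha
  set W : ℤ := ∑ i ∈ S, (β i * w a i).im with hW
  have hW0 : W ≠ 0 := fun h0 => hn (by rw [h0]; exact dvd_zero _)
  have hsum1 := one_le_sum S β ha hW0
  have hsw : star (w a p) = -w a (-p) := by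
    rw [star_w, hpo.neg_one_pow]; ring
  have hUp : w a p + w a (-p) = ((U a p : ℤ) : R a) * dl a := by
    have := sub_star' a (w a p)
    rw [(w_re_im a p).1, hsw, sub_neg_eq_add] at this
    exact this
  obtain ⟨q, α, hq1, hq2, hα⟩ := dir (N := 2 * p) (H := H) (by have := hp.pos; omega) hH S
  have hq0 : 0 < q := hq1
  set M := mat a (2 * p) q (-1) (S ×ˢ Finset.univ) (bb a β) xx α with hM
  have hdet : M.det ≠ 0 := by
    intro h0
    have h1 := dvd_of_det ha hq0 (irrU ha hV hp hp2 hq0 (by omega)) h0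
    rw [sum_bb, ← hW] at h1
    obtain ⟨z, hz⟩ := h1
    apply hn
    have h2 : w a p * w a (-((2 * p : ℕ) : ℤ)) = w a (-p) := by
      rw [← w_add]
      congr 1
      push_cast
      ring
    have h3 : dl a * (((U a p : ℤ) : R a) * z) = dl a * ((W : R a) * w a p) := by
      have h4 : (((-1 : ℤˣ) : ℤ) : R a) = -1 := by simp
      rw [h4] at hz
      linear_combination (-w a p) * hz - z * hUp - z * h2
    have h4 := mul_left_cancel₀ (dl_ne_zero a) h3
    have h5 : w a p * w a (-p) = 1 := by rw [← w_add, add_neg_cancel, w_zero]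
    have h6 : ((U a p : ℤ) : R a) * (z * w a (-p)) = (W : R a) := by
      linear_combination (w a (-p)) * h4 + (W : R a) * h5
    have h7 := congrArg QuadraticAlgebra.re h6
    simp only [QuadraticAlgebra.re_mul, QuadraticAlgebra.re_intCast, QuadraticAlgebra.im_intCast,
      Int.cast_id, zero_mul, mul_zero, add_zero] at h7
    exact ⟨_, h7.symm⟩
  have hmem : M.det ∈ Ideal.span {((d : ℤ) : R a)} := by
    refine det_mem hq0 _ ?_ ?_
    · rw [Ideal.mem_span_singleton]
      have h1 : w a ((2 * p : ℕ) : ℤ) - (((-1 : ℤˣ) : ℤ) : R a) = ((U a p : ℤ) : R a) *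
          (dl a * w a p) := by
        have h5 : w a p * w a (-p) = 1 := by rw [← w_add, add_neg_cancel, w_zero]
        have h6 : w a ((2 * p : ℕ) : ℤ) = w a p * w a p := by
          rw [← w_add]
          congr 1
          push_cast
          ring
        have h4 : (((-1 : ℤˣ) : ℤ) : R a) = -1 := by simp
        rw [h4, h6]
        linear_combination (w a p) * hUp - h5
      rw [h1]
      exact Dvd.dvd.mul_right (by exact_mod_cast (Int.cast_dvd_cast (α := R a) _ _ hd1)) _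
    · rw [sum_bb, Ideal.mem_span_singleton]
      exact Dvd.dvd.mul_right (by exact_mod_cast (Int.cast_dvd_cast (α := R a) _ _ hd2)) _
  obtain ⟨z, hz⟩ := Ideal.mem_span_singleton.1 hmem
  have hz0 : z ≠ 0 := by
    rintro rfl
    exact hdet (by rw [hz, mul_zero])
  have hz1 := one_le_abs ha hz0
  set u : ℝ := 2 * ∑ i ∈ S, hs a (β i) with hu
  have b1 := det_le ha (σ := -1) (b := bb a β) hq0 hα (s := s₁ a) (fun y => abs_s₁_w a y ha)
    (sum_hs a S β (s₁ a) fun z => le_max_left _ _)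
  have b2 := det_le ha (σ := -1) (b := bb a β) hq0 hα (s := s₂ a) (fun y => abs_s₂_w' a y ha)
    (sum_hs a S β (s₂ a) fun z => le_max_right _ _)
  rw [← hM, ← hu, hz, map_mul, abs_mul, map_intCast] at b1 b2
  have hu1 : 1 ≤ u := by linarith
  have hbd : u ^ q * eps a ^ (2 * p / H + q) ≤
      u ^ (H ^ S.card) * eps a ^ (2 * p / H + H ^ S.card) :=
    mul_le_mul (pow_le_pow_right₀ hu1 hq2) (pow_le_pow_right₀ he1.le (by omega)) (by positivity)
      (by positivity)
  refine le_trans ?_ hbd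
  set B := u ^ q * eps a ^ (2 * p / H + q) with hB
  have hd0 : (0 : ℝ) ≤ |(((d : ℤ) : ℝ))| := abs_nonneg _
  have hdd : |(((d : ℤ) : ℝ))| = d := by simp
  rw [hdd] at b1 b2
  have hB0 : 0 ≤ B := by positivity
  have h1 : (d : ℝ) ^ 2 ≤ B ^ 2 := by
    have hd' : (0 : ℝ) ≤ d := Nat.cast_nonneg d
    calc (d : ℝ) ^ 2 = (d : ℝ) * d * 1 := by ring
      _ ≤ (d : ℝ) * d * (|s₁ a z| * |s₂ a z|) := mul_le_mul_of_nonneg_left hz1 (by positivity)
      _ = (d * |s₁ a z|) * (d * |s₂ a z|) := by ring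
      _ ≤ B * B := mul_le_mul b1 b2 (by positivity) hB0
      _ = B ^ 2 := by ring
  exact (pow_le_pow_iff_left₀ (Nat.cast_nonneg d) hB0 two_ne_zero).1 h1

/-- Common divisors with `V_p`. -/
theorem finalV {H d : ℕ} (hH : 1 ≤ H) (hHp : H ^ S.card < p) (hd1 : (d : ℤ) ∣ V a p)
    (hd2 : (d : ℤ) ∣ ∑ i ∈ S, (β i * w a i).im)
    (hn : ¬ V a p ∣ 2 * ∑ i ∈ S, (β i * w a i).im) :
    (d : ℝ) ≤ ((2 * ∑ i ∈ S, hs a (β i)) ^ (H ^ S.card) * eps a ^ (p / H + H ^ S.card)) ^ 2 := by
  have hdom := isDomain ha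
  have hpo : Odd p := hp.odd_of_ne_two hp2
  have he1 := one_lt_eps ha
  set W : ℤ := ∑ i ∈ S, (β i * w a i).im with hW
  have hW0 : W ≠ 0 := fun h0 => hn (by rw [h0, mul_zero]; exact dvd_zero _)
  have hsum1 := one_le_sum S β ha hW0
  have hsw : star (w a p) = -w a (-p) := by
    rw [star_w, hpo.neg_one_pow]; ring
  have h5 : w a p * w a (-p) = 1 := by rw [← w_add, add_neg_cancel, w_zero]
  have hVp : w a p - w a (-p) = ((V a p : ℤ) : R a) := by
    rw [← w_add_star, hsw]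
    ring
  obtain ⟨q, α, hq1, hq2, hα⟩ := dir (N := p) (H := H) hp.pos hH S
  have hq0 : 0 < q := hq1
  set M := mat a p q 1 (S ×ˢ Finset.univ) (bb a β) xx α with hM
  have hdet : M.det ≠ 0 := by
    intro h0
    have h1 := dvd_of_det ha hq0 (irrV ha hV hp hp2 hq0 (by omega)) h0
    rw [sum_bb, ← hW] at h1
    obtain ⟨z, hz⟩ := h1
    apply hn
    have h4 : (((1 : ℤˣ) : ℤ) : R a) = 1 := by simp
    rw [h4, one_mul] at hz
    have h3 : ((V a p : ℤ) : R a) * z = (W : R a) * (dl a * (1 + w a p)) := by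
      linear_combination (-(1 + w a p)) * hz - z * hVp + z * h5
    have h6 : (dl a * (1 + w a p)).im = V a p + 2 := by
      have h7 := mul_w_im a (-a) 2 p
      rw [mul_add, mul_one, QuadraticAlgebra.im_add]
      unfold dl
      rw [h7, V_eq]
      simp only
      ring
    have h7 := congrArg QuadraticAlgebra.im h3
    simp only [QuadraticAlgebra.im_mul, QuadraticAlgebra.re_intCast, QuadraticAlgebra.im_intCast,
      Int.cast_id, zero_mul, mul_zero, add_zero] at h7 h6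
    refine ⟨z.im - W, ?_⟩
    have h8 : V a p * z.im = W * (V a p + 2) := by
      rw [← h6]
      linear_combination h7
    linear_combination -h8
  have hmem : M.det ∈ Ideal.span {((d : ℤ) : R a), w a p - 1} := by
    refine det_mem hq0 _ ?_ ?_
    · have h4 : (((1 : ℤˣ) : ℤ) : R a) = 1 := by simp
      rw [h4]
      exact Ideal.subset_span (by simp)
    · rw [sum_bb, ← hW]
      refine Ideal.mul_mem_right _ _ ?_
      obtain ⟨c, hc⟩ := hd2
      rw [hc]
      push_cast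
      exact Ideal.mul_mem_right _ _ (Ideal.subset_span (by simp))
  obtain ⟨y, z, hyz⟩ := Ideal.mem_span_pair.1 hmem
  -- the norm
  have hnorm : (d : ℤ) ∣ QuadraticAlgebra.norm M.det := by
    obtain ⟨c, hc⟩ := hd1
    have h1 : M.det * star M.det = ((d : ℤ) : R a) * (y * star y * ((d : ℤ) : R a) +
        y * star (z * (w a p - 1)) + star y * (z * (w a p - 1)) -
        ((c : ℤ) : R a) * (z * star z)) := by
      have h2 : (w a p - 1) * star (w a p - 1) = -(((d : ℤ) : R a) * ((c : ℤ) : R a)) := by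
        rw [star_sub, star_one, hsw]
        have h3 : ((V a p : ℤ) : R a) = ((d : ℤ) : R a) * ((c : ℤ) : R a) := by
          rw [hc]
          push_cast
          ring
        rw [h3] at hVp
        linear_combination (-1 : R a) * hVp - h5
      have h3 : star (((d : ℤ) : R a)) = ((d : ℤ) : R a) := by simp
      rw [← hyz, star_add, star_mul' y, h3, star_mul' z]
      linear_combination (z * star z) * h2
    have h2 : ((QuadraticAlgebra.norm M.det : ℤ) : R a) = M.det * star M.det := by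
      have := QuadraticAlgebra.algebraMap_norm_eq_mul_star M.det
      rw [← this]
      simp
    rw [← h2] at h1
    have h3 := congrArg QuadraticAlgebra.re h1
    rw [QuadraticAlgebra.re_mul] at h3
    simp only [QuadraticAlgebra.re_intCast, QuadraticAlgebra.im_intCast, Int.cast_id, zero_mul,
      mul_zero, add_zero] at h3
    exact ⟨_, h3⟩
  have hn0 := norm_ne_zero ha hdet
  set u : ℝ := 2 * ∑ i ∈ S, hs a (β i) with hu
  have b1 := det_le ha (σ := 1) (b := bb a β) hq0 hα (s := s₁ a) (fun y => abs_s₁_w a y ha)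
    (sum_hs a S β (s₁ a) fun z => le_max_left _ _)
  have b2 := det_le ha (σ := 1) (b := bb a β) hq0 hα (s := s₂ a) (fun y => abs_s₂_w' a y ha)
    (sum_hs a S β (s₂ a) fun z => le_max_right _ _)
  rw [← hM, ← hu] at b1 b2
  have hu1 : 1 ≤ u := by linarith
  have hbd : u ^ q * eps a ^ (p / H + q) ≤
      u ^ (H ^ S.card) * eps a ^ (p / H + H ^ S.card) :=
    mul_le_mul (pow_le_pow_right₀ hu1 hq2) (pow_le_pow_right₀ he1.le (by omega)) (by positivity)
      (by positivity)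
  have h1 : (d : ℤ) ≤ |QuadraticAlgebra.norm M.det| :=
    Int.le_of_dvd (abs_pos.2 hn0) ((dvd_abs _ _).2 hnorm)
  have h2 : ((d : ℤ) : ℝ) ≤ ((|QuadraticAlgebra.norm M.det| : ℤ) : ℝ) := by exact_mod_cast h1
  rw [Int.cast_abs, norm_eq, abs_mul] at h2
  calc (d : ℝ) = ((d : ℤ) : ℝ) := by simp
    _ ≤ |s₁ a M.det| * |s₂ a M.det| := h2
    _ ≤ (u ^ q * eps a ^ (p / H + q)) * (u ^ q * eps a ^ (p / H + q)) :=
        mul_le_mul b1 b2 (abs_nonneg _) (by positivity)
    _ = (u ^ q * eps a ^ (p / H + q)) ^ 2 := by ring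
    _ ≤ _ := pow_le_pow_left₀ (by positivity) hbd 2

end

end Pool.Agent.K6.H50.SMP
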