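import Pool.Agent.K6.H50.SMU.UMat
import Pool.Agent.K6.H50.SPF.Irr

/-!
# When the determinant vanishes
-/

set_option autoImplicit false

namespace Pool.Agent.K6.H50.SMP

open Finset Polynomial Pool.Agent.N449.SQ

theorem inc_inj (a : ℤ) : Function.Injective (inc a) := by
  intro z y h
  have h1 := congrArg QuadraticAlgebra.re h
  have h2 := congrArg QuadraticAlgebra.im h
  simp only [inc, RingHom.coe_mk, MonoidHom.coe_mk, OneHom.coe_mk] at h1 h2
  ext
  · exact_mod_cast h1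
  · exact_mod_cast h2

/-- If the determinant vanishes then `1 - σ ε ^ (-N)` divides the sparse number. -/
theorem dvd_of_det {ι : Type*} {a : ℤ} (ha : 1 ≤ a) {N q : ℕ} {σ : ℤˣ} {I : Finset ι}
    {b : ι → R a} {x α : ι → ℤ} (hq : 0 < q)
    (hirr : Irreducible (X ^ q - C (inc a (((σ : ℤ) : R a) * w a (-N))) : (K a)[X]))
    (h0 : (mat a N q σ I b x α).det = 0) :
    (1 - ((σ : ℤ) : R a) * w a (-N)) ∣ ∑ k ∈ I, b k * w a (x k) := by
  classical
  have hdom := isDomain ha
  have hK := fact ha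
  obtain ⟨v, hv, hMv⟩ := Matrix.exists_mulVec_eq_zero_iff.2 h0
  set f : (K a)[X] := X ^ q - C (inc a (((σ : ℤ) : R a) * w a (-N))) with hf
  have hfact : Fact (Irreducible f) := ⟨hirr⟩
  set φ : R a →+* AdjoinRoot f := (AdjoinRoot.of f).comp (inc a) with hφ
  have hφinj : Function.Injective φ := (AdjoinRoot.of f).injective.comp (inc_inj a)
  have hroot : (AdjoinRoot.root f) ^ q = φ (((σ : ℤ) : R a) * w a (-N)) := by
    have h1 : AdjoinRoot.mk f (X ^ q - C (inc a (((σ : ℤ) : R a) * w a (-N)))) = 0 := by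
      rw [← hf]
      exact AdjoinRoot.mk_self
    rw [map_sub, map_pow, AdjoinRoot.mk_X, AdjoinRoot.mk_C] at h1
    exact sub_eq_zero.1 h1
  have hσ2 : ((σ : ℤ) : R a) * ((σ : ℤ) : R a) = 1 := by
    rcases Int.units_eq_one_or σ with h | h <;> simp [h]
  have hσ0 : ((σ : ℤ) : R a) ≠ 0 := fun h => by rw [h, mul_zero] at hσ2; exact zero_ne_one hσ2
  have hroot0 : AdjoinRoot.root f ≠ 0 := by
    intro h
    rw [h, zero_pow hq.ne'] at hroot
    have h1 : ((σ : ℤ) : R a) * w a (-N) = 0 := hφinj (by rw [← hroot, map_zero])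
    rcases mul_eq_zero.1 h1 with h2 | h2
    · exact hσ0 h2
    · exact w_ne_zero a _ h2
  set θ : (AdjoinRoot f)ˣ := Units.mk0 (AdjoinRoot.root f) hroot0 with hθd
  set E := Units.map (φ : R a →* AdjoinRoot f) (wu a) with hE
  have hθ : E ^ N * θ ^ q =
      Units.map (Int.castRingHom (AdjoinRoot f) : ℤ →* AdjoinRoot f) σ := by
    apply Units.ext
    have h1 : ((E ^ N : (AdjoinRoot f)ˣ) : AdjoinRoot f) = φ (w a N) := by
      rw [map_w, zpow_natCast]
    have h2 : ((θ ^ q : (AdjoinRoot f)ˣ) : AdjoinRoot f) = φ (((σ : ℤ) : R a) * w a (-N)) := by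
      rw [Units.val_pow_eq_pow_val, ← hroot, hθd, Units.val_mk0]
    rw [Units.val_mul, h1, h2, ← map_mul]
    have h3 : w a N * (((σ : ℤ) : R a) * w a (-N)) = ((σ : ℤ) : R a) := by
      have h4 : w a N * w a (-N) = 1 := by rw [← w_add, add_neg_cancel, w_zero]
      linear_combination ((σ : ℤ) : R a) * h4
    rw [h3, map_intCast]
    rfl
  -- the polynomials
  set T : ℕ := ∑ k ∈ I, (α k).natAbs with hT
  have hTk : ∀ k ∈ I, 0 ≤ α k + T := by
    intro k hk
    have h1 : (α k).natAbs ≤ T := Finset.single_le_sum (f := fun k => (α k).natAbs)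
      (fun _ _ => Nat.zero_le _) hk
    omega
  set D : (R a)[X] := ∑ k ∈ I, C (b k * w a (x k)) * X ^ (α k + T).toNat with hD
  set P : (K a)[X] := ∑ j : Fin q, C (inc a (v j * w a ((j : ℕ) * N / q : ℕ))) * X ^ (j : ℕ) with hP
  have hDθ : AdjoinRoot.mk f (D.map (inc a)) =
      ((θ ^ T : (AdjoinRoot f)ˣ) : AdjoinRoot f) *
        ∑ k ∈ I, φ (b k) * ((E ^ x k * θ ^ α k : (AdjoinRoot f)ˣ) : AdjoinRoot f) := by
    rw [hD, Polynomial.map_sum, map_sum, Finset.mul_sum]
    refine Finset.sum_congr rfl fun k hk => ?_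
    rw [Polynomial.map_mul, Polynomial.map_pow, map_C, map_X, map_mul, map_pow, AdjoinRoot.mk_X,
      AdjoinRoot.mk_C]
    have h1 : AdjoinRoot.root f ^ (α k + T).toNat =
        ((θ ^ (α k + T) : (AdjoinRoot f)ˣ) : AdjoinRoot f) := by
      have h2 : (((α k + T).toNat : ℕ) : ℤ) = α k + T := Int.toNat_of_nonneg (hTk k hk)
      have h2' : θ ^ (α k + T) = θ ^ (α k + T).toNat := by
        conv_lhs => rw [← h2]
        rw [zpow_natCast]
      rw [h2', Units.val_pow_eq_pow_val, hθd, Units.val_mk0]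
    have h3 : AdjoinRoot.of f (inc a (b k * w a (x k))) = φ (b k) * φ (w a (x k)) := by
      rw [← map_mul]
      rfl
    rw [h1, h3, map_w, zpow_add, zpow_natCast]
    push_cast
    ring
  have hPθ : AdjoinRoot.mk f P =
      ∑ j : Fin q, φ (v j) * ((E ^ ((j : ℕ) * N / q) * θ ^ (j : ℕ) : (AdjoinRoot f)ˣ) :
        AdjoinRoot f) := by
    rw [hP, map_sum]
    refine Finset.sum_congr rfl fun j _ => ?_
    rw [map_mul, map_pow, AdjoinRoot.mk_X, AdjoinRoot.mk_C]
    have h3 : AdjoinRoot.of f (inc a (v j * w a ((j : ℕ) * N / q : ℕ))) =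
        φ (v j) * φ (w a ((j : ℕ) * N / q : ℕ)) := by
      rw [← map_mul]
      rfl
    rw [h3, map_w, zpow_natCast, Units.val_mul, Units.val_pow_eq_pow_val θ, hθd, Units.val_mk0]
    ring
  have hprod : (∑ k ∈ I, φ (b k) * ((E ^ x k * θ ^ α k : (AdjoinRoot f)ˣ) : AdjoinRoot f)) *
      AdjoinRoot.mk f P = 0 := by
    rw [hPθ, Finset.mul_sum]
    have h2 : ∀ j : Fin q, (∑ k ∈ I, φ (b k) * ((E ^ x k * θ ^ α k : (AdjoinRoot f)ˣ) :
        AdjoinRoot f)) * (φ (v j) * ((E ^ ((j : ℕ) * N / q) * θ ^ (j : ℕ) : (AdjoinRoot f)ˣ) :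
        AdjoinRoot f)) = ∑ i : Fin q, φ (mat a N q σ I b x α i j * v j) *
          ((E ^ ((i : ℕ) * N / q) * θ ^ (i : ℕ) : (AdjoinRoot f)ˣ) : AdjoinRoot f) := by
      intro j
      have h3 := key (I := I) (b := b) (x := x) (α := α) hq φ θ hθ j
      rw [← hE] at h3
      have h4 : ∑ i : Fin q, φ (mat a N q σ I b x α i j * v j) *
          ((E ^ ((i : ℕ) * N / q) * θ ^ (i : ℕ) : (AdjoinRoot f)ˣ) : AdjoinRoot f) =
          φ (v j) * ∑ i : Fin q, φ (mat a N q σ I b x α i j) *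
          ((E ^ ((i : ℕ) * N / q) * θ ^ (i : ℕ) : (AdjoinRoot f)ˣ) : AdjoinRoot f) := by
        rw [Finset.mul_sum]
        refine Finset.sum_congr rfl fun i _ => ?_
        rw [map_mul]
        ring
      rw [h4, h3]
      ring
    rw [Finset.sum_congr rfl fun j _ => h2 j, Finset.sum_comm]
    refine Finset.sum_eq_zero fun i _ => ?_
    have h3 : ∑ j : Fin q, mat a N q σ I b x α i j * v j = 0 := by
      have := congrFun hMv i
      rwa [Matrix.mulVec, dotProduct, Pi.zero_apply] at this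
    rw [← Finset.sum_mul, ← map_sum, h3, map_zero, zero_mul]
  have hfmap : f = (X ^ q - C (((σ : ℤ) : R a) * w a (-N)) : (R a)[X]).map (inc a) := by
    rw [hf, Polynomial.map_sub, Polynomial.map_pow, map_X, map_C]
  rcases mul_eq_zero.1 hprod with h | h
  · -- the sparse polynomial is divisible
    rw [h, mul_zero] at hDθ
    have h1 : f ∣ D.map (inc a) := AdjoinRoot.mk_eq_zero.1 hDθ
    rw [hfmap] at h1
    have h2 := (Polynomial.map_dvd_map (inc a) (inc_inj a) (monic_X_pow_sub_C _ hq.ne')).1 h1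
    have h4 := Polynomial.eval_dvd (x := (1 : R a)) h2
    rw [hD, eval_finsetSum] at h4
    simpa using h4
  · -- a polynomial of smaller degree
    exfalso
    have h1 : f ∣ P := AdjoinRoot.mk_eq_zero.1 h
    have hdeg : P.natDegree < q := by
      refine lt_of_le_of_lt (natDegree_sum_le_of_forall_le (n := q - 1) _ _ fun j _ => ?_) (by omega)
      refine (natDegree_C_mul_X_pow_le _ _).trans ?_
      have := j.2
      omega
    have hfdeg : f.natDegree = q := by rw [hf]; exact natDegree_X_pow_sub_C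
    have hP0 : P = 0 := by
      by_contra hne
      have := natDegree_le_of_dvd h1 hne
      omega
    apply hv
    funext j
    have h2 : P.coeff (j : ℕ) = inc a (v j * w a ((j : ℕ) * N / q : ℕ)) := by
      rw [hP, finsetSum_coeff, Finset.sum_eq_single j]
      · rw [coeff_C_mul_X_pow, if_pos rfl]
      · intro i _ hij
        rw [coeff_C_mul_X_pow, if_neg]
        intro h3
        exact hij (Fin.ext h3.symm)
      · intro h3
        exact absurd (Finset.mem_univ _) h3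
    rw [hP0, coeff_zero] at h2
    have h3 : v j * w a ((j : ℕ) * N / q : ℕ) = 0 := inc_inj a (by rw [← h2, map_zero])
    exact (mul_eq_zero.1 h3).resolve_right (w_ne_zero a _)

theorem irr_gen {K : Type} [Field K] {A : K} {q : ℕ} (hq : q ≠ 0) (hsq : ∀ b : K, b ^ 2 ≠ -A)
    (h1 : ∀ l : ℕ, l.Prime → Odd l → l ∣ q → ∀ r : K, r ^ l ≠ A)
    (h4 : ∀ r : K, r ^ 4 ≠ 4 * A) : Irreducible (X ^ q - C (-A) : K[X]) := by
  rcases Nat.even_or_odd q with hev | hodd
  · obtain ⟨n, hn⟩ := hev.two_dvd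
    have hn0 : n ≠ 0 := by
      rintro rfl
      exact hq hn
    have hq2 : q = n * 2 := by omega
    rw [hq2]
    refine Pool.Agent.K6.H50.SPF.irr_even hn0 hsq (fun l hl hlo hln => h1 l hl hlo ?_) (fun _ => h4)
    rw [hq2]
    exact dvd_mul_of_dvd_left hln 2
  · apply X_pow_sub_C_irreducible_of_odd hodd
    intro p hp hpq b hb
    have hpo : Odd p := Odd.of_dvd_nat hodd hpq
    refine h1 p hp hpo hpq (-b) ?_
    rw [hpo.neg_pow, hb, neg_neg]

/-- `ε ^ (-m)` is not an `l`-th power if `l` is prime to `m`. -/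
theorem not_pow {a : ℤ} (ha : 1 ≤ a)
    (hV : ∀ (T : ℤ) (r : ℕ), 1 ≤ T → 2 ≤ r → Odd r → V T r ≠ a) {m l : ℕ} (hl : 2 ≤ l)
    (hcop : Nat.Coprime m l) (r : K a) (h : r ^ l = inc a (w a (-m))) : False := by
  have hK := fact ha
  have hr0 : r ≠ 0 := by
    rintro rfl
    rw [zero_pow (by omega)] at h
    exact w_ne_zero a _ (inc_inj a (by rw [← h, map_zero]))
  have hw0 : inc a (w a 1) ≠ 0 := fun h0 => w_ne_zero a _ (inc_inj a (by rw [h0, map_zero]))
  have hwz : ∀ y : ℤ, inc a (w a y) = (inc a (w a 1)) ^ y := by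
    intro y
    have h1 : inc a (w a 1) = ((Units.map (inc a : R a →* K a) (wu a) : (K a)ˣ) : K a) := by
      rw [map_w, zpow_one]
    rw [map_w, h1, Units.val_zpow_eq_zpow_val]
  have hbez : (m : ℤ) * Nat.gcdA m l + l * Nat.gcdB m l = 1 := by
    rw [← Nat.gcd_eq_gcd_ab, hcop.gcd_eq_one]
    norm_num
  set e := inc a (w a 1) with he
  set X := Nat.gcdA m l
  set Y := Nat.gcdB m l
  have h2 : (r ^ (-X) * e ^ Y) ^ l = e := by
    rw [mul_pow, ← zpow_natCast (r ^ (-X)), ← zpow_mul, mul_comm (-X) (l : ℤ), zpow_mul,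
      zpow_natCast, h, hwz, ← zpow_natCast (e ^ Y), ← zpow_mul, ← zpow_mul, ← zpow_add₀ hw0]
    have h3 : -(m : ℤ) * -X + Y * l = 1 := by linear_combination hbez
    rw [h3, zpow_one]
  have h5 : e = QuadraticAlgebra.omega := by
    rw [he]
    have h6 : w a 1 = ⟨0, 1⟩ := by simp [w, wu]
    rw [h6]
    ext <;> simp [inc]
  exact no_root ha hV l hl (r ^ (-X) * e ^ Y) (Or.inl (by rw [h2, h5]))

theorem t₁_w (a : ℤ) (y : ℤ) : t₁ a (inc a (w a y)) = eps a ^ y := by rw [t₁_inc, s₁_w]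

theorem eps'_neg (a : ℤ) : eps' a < 0 := by
  rw [eps'_eq]
  have := inv_pos.2 (eps_pos a)
  linarith

theorem s₂_w_neg (a : ℤ) {p : ℕ} (hp : Odd p) : s₂ a (w a (-p)) < 0 := by
  rw [s₂_w]
  have h1 : Odd (-(p : ℤ)) := by
    have : Odd (p : ℤ) := by exact_mod_cast hp
    exact this.neg
  exact h1.zpow_neg (eps'_neg a)

/-- The case of `U`. -/
theorem irrU {a : ℤ} (ha : 1 ≤ a)
    (hV : ∀ (T : ℤ) (r : ℕ), 1 ≤ T → 2 ≤ r → Odd r → V T r ≠ a) {p q : ℕ} (hp : p.Prime)
    (hp2 : p ≠ 2) (hq : 0 < q) (hqp : q < p) :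
    Irreducible (X ^ q - C (inc a ((((-1 : ℤˣ) : ℤ) : R a) * w a (-((2 * p : ℕ) : ℤ)))) : (K a)[X]) := by
  have hK := fact ha
  have hpo : Odd p := hp.odd_of_ne_two hp2
  have e1 : inc a ((((-1 : ℤˣ) : ℤ) : R a) * w a (-((2 * p : ℕ) : ℤ))) =
      -inc a (w a (-((2 * p : ℕ) : ℤ))) := by
    rw [← map_neg]
    congr 1
    simp
  rw [e1]
  refine irr_gen hq.ne' ?_ ?_ ?_
  · intro b hb
    have h1 := congrArg (t₁ a) hb
    rw [map_pow, map_neg, t₁_w] at h1
    have h2 : 0 < eps a ^ (-((2 * p : ℕ) : ℤ)) := zpow_pos (eps_pos a) _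
    have := sq_nonneg (t₁ a b)
    linarith
  · intro l hl hlo hlq r hr
    have hlp : l < p := (Nat.le_of_dvd hq hlq).trans_lt hqp
    refine not_pow ha hV hl.two_le ?_ r hr
    rw [Nat.coprime_comm, Nat.Prime.coprime_iff_not_dvd hl]
    intro hd
    rcases (Nat.Prime.dvd_mul hl).1 hd with h1 | h1
    · have := Nat.le_of_dvd (by norm_num) h1
      have h3 : l = 2 := by have := hl.two_le; omega
      rw [h3] at hlo
      exact absurd hlo (by decide)
    · have h3 : l = p := (Nat.prime_dvd_prime_iff_eq hl hp).1 h1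
      omega
  · intro r hr
    have e2 : inc a (w a (-((2 * p : ℕ) : ℤ))) = inc a (w a (-p)) ^ 2 := by
      rw [← map_pow, pow_two, ← w_add]
      congr 2
      push_cast
      ring
    rw [e2] at hr
    have h1 : (r ^ 2 - 2 * inc a (w a (-p))) * (r ^ 2 + 2 * inc a (w a (-p))) = 0 := by
      linear_combination hr
    have h2 : 0 < eps a ^ (-(p : ℤ)) := zpow_pos (eps_pos a) _
    rcases mul_eq_zero.1 h1 with h3 | h3
    · have h4 : (star r) ^ 2 = 2 * star (inc a (w a (-p))) := by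
        have h5 : r ^ 2 = 2 * inc a (w a (-p)) := by linear_combination h3
        rw [← star_pow, h5, star_mul']
        congr 1
        ext <;> simp
      have h6 := congrArg (t₁ a) h4
      rw [map_pow, map_mul, t₁_star_inc, map_ofNat] at h6
      have := s₂_w_neg a hpo
      have := sq_nonneg (t₁ a (star r))
      linarith
    · have h4 := congrArg (t₁ a) h3
      rw [map_add, map_pow, map_mul, t₁_w, map_zero, map_ofNat] at h4
      have := sq_nonneg (t₁ a r)
      linarith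

/-- The case of `V`. -/
theorem irrV {a : ℤ} (ha : 1 ≤ a)
    (hV : ∀ (T : ℤ) (r : ℕ), 1 ≤ T → 2 ≤ r → Odd r → V T r ≠ a) {p q : ℕ} (hp : p.Prime)
    (hp2 : p ≠ 2) (hq : 0 < q) (hqp : q < p) :
    Irreducible (X ^ q - C (inc a ((((1 : ℤˣ) : ℤ) : R a) * w a (-(p : ℤ)))) : (K a)[X]) := by
  have hK := fact ha
  have hpo : Odd p := hp.odd_of_ne_two hp2
  have e1 : inc a ((((1 : ℤˣ) : ℤ) : R a) * w a (-(p : ℤ))) = -(-inc a (w a (-(p : ℤ)))) := by
    rw [neg_neg]
    congr 1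
    simp
  have h2 : 0 < eps a ^ (-(p : ℤ)) := zpow_pos (eps_pos a) _
  rw [e1]
  refine irr_gen hq.ne' ?_ ?_ ?_
  · intro b hb
    rw [neg_neg] at hb
    have h4 : (star b) ^ 2 = star (inc a (w a (-p))) := by rw [← star_pow, hb]
    have h6 := congrArg (t₁ a) h4
    rw [map_pow, t₁_star_inc] at h6
    have := s₂_w_neg a hpo
    have := sq_nonneg (t₁ a (star b))
    linarith
  · intro l hl hlo hlq r hr
    have hlp : l < p := (Nat.le_of_dvd hq hlq).trans_lt hqp
    refine not_pow ha hV hl.two_le (m := p) ?_ (-r) (by rw [hlo.neg_pow, hr, neg_neg])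
    exact (Nat.coprime_primes hp hl).2 (by omega)
  · intro r hr
    have h4 := congrArg (t₁ a) hr
    rw [map_pow, map_mul, map_neg, t₁_w, map_ofNat] at h4
    have : 0 ≤ t₁ a r ^ 4 := by positivity
    linarith

end Pool.Agent.K6.H50.SMP
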