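import Pool.Agent.K6.H50.SMU.Det
import Pool.Agent.N449.SQ.Final

/-!
# The matrix of the multiplication by a sparse number in base `ε`
-/

set_option autoImplicit false

namespace Pool.Agent.K6.H50.SMP

open Finset Pool.Agent.N449.SQ

/-- The determinant is at most the product of the sums of the columns. -/
theorem det_le_prod {n : Type*} [Fintype n] [DecidableEq n] (M : Matrix n n ℝ) :
    |M.det| ≤ ∏ j, ∑ i, |M i j| := by
  classical
  rw [Matrix.det_apply]
  refine (Finset.abs_sum_le_sum_abs _ _).trans ?_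
  have h1 : ∀ σ : Equiv.Perm n, |Equiv.Perm.sign σ • ∏ i, M (σ i) i| = ∏ i, |M (σ i) i| := by
    intro σ
    rw [← Finset.abs_prod]
    rcases Int.units_eq_one_or (Equiv.Perm.sign σ) with h | h
    · rw [h, one_smul]
    · rw [h, Units.neg_smul, one_smul, abs_neg]
  rw [Finset.sum_congr rfl fun σ _ => h1 σ, Finset.prod_univ_sum]
  have h2 : ∑ σ : Equiv.Perm n, ∏ i, |M (σ i) i| =
      ∑ f ∈ Finset.univ.image (fun σ : Equiv.Perm n => (σ : n → n)), ∏ i, |M (f i) i| := by
    rw [Finset.sum_image]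
    intro a _ b _ hab
    exact DFunLike.coe_injective hab
  rw [h2]
  refine Finset.sum_le_sum_of_subset_of_nonneg ?_ fun f _ _ =>
    Finset.prod_nonneg fun i _ => abs_nonneg _
  intro f _
  simp

section

variable {ι : Type*} (a : ℤ) (N q : ℕ) (σ : ℤˣ) (I : Finset ι) (b : ι → R a) (x α : ι → ℤ)

/-- The exponent of `ε`. -/
def ex (k : ι) (j : ℕ) : ℤ :=
  x k + (j * N / q : ℕ) - (α k + j) / q * N - (((α k + j) % q).toNat * N / q : ℕ)

/-- The matrix. -/
def mat : Matrix (Fin q) (Fin q) (R a) := fun i j =>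
  ∑ k ∈ I, if ((α k + j) % q).toNat = i then
    b k * (((σ ^ ((α k + (j : ℕ)) / q) : ℤˣ) : ℤ) : R a) * w a (ex N q x α k j) else 0

end

theorem ex_bounds {ι : Type*} {N q e : ℕ} {x α : ι → ℤ} (hq : 0 < q) {k : ι}
    (ha : |(q : ℤ) * x k - α k * N| ≤ e) (j : ℕ) : |ex N q x α k j| ≤ ((e / q + 1 : ℕ) : ℤ) := by
  have hq' : (0 : ℤ) < q := by exact_mod_cast hq
  obtain ⟨A, hA⟩ : ∃ A, A = j * N / q := ⟨_, rfl⟩
  obtain ⟨m, hm⟩ : ∃ m, m = (α k + j) / q := ⟨_, rfl⟩
  obtain ⟨r, hr⟩ : ∃ r, r = ((α k + j) % q).toNat := ⟨_, rfl⟩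
  obtain ⟨B, hB⟩ : ∃ B, B = r * N / q := ⟨_, rfl⟩
  obtain ⟨c, hc⟩ : ∃ c, c = e / q + 1 := ⟨_, rfl⟩
  have hex : ex N q x α k j = x k + A - m * N - B := by
    unfold ex
    rw [← hA, ← hm, ← hr, ← hB]
  rw [hex, ← hc]
  have hr' : (r : ℤ) = (α k + j) % q := by
    rw [hr]
    exact Int.toNat_of_nonneg (Int.emod_nonneg _ hq'.ne')
  have h1 : (q : ℤ) * m + r = α k + j := by rw [hm, hr']; exact Int.mul_ediv_add_emod _ _
  have a1 : q * A ≤ j * N := by rw [hA]; exact Nat.mul_div_le _ _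
  have a2 : j * N < q * A + q := by
    have := Nat.lt_mul_div_succ (j * N) hq
    rw [← hA] at this
    linarith
  have b1 : q * B ≤ r * N := by rw [hB]; exact Nat.mul_div_le _ _
  have b2 : r * N < q * B + q := by
    have := Nat.lt_mul_div_succ (r * N) hq
    rw [← hB] at this
    linarith
  have c1 : e < q * c := by
    rw [hc]
    have := Nat.lt_mul_div_succ e hq
    linarith
  obtain ⟨d1, d2⟩ := abs_le.1 ha
  have h2 : (q : ℤ) * m * N + r * N = α k * N + j * N := by linear_combination (N : ℤ) * h1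
  have a1' : (q : ℤ) * A ≤ j * N := by exact_mod_cast a1
  have a2' : (j : ℤ) * N < q * A + q := by exact_mod_cast a2
  have b1' : (q : ℤ) * B ≤ r * N := by exact_mod_cast b1
  have b2' : (r : ℤ) * N < q * B + q := by exact_mod_cast b2
  have c1' : (e : ℤ) < q * c := by exact_mod_cast c1
  have e1 : (q : ℤ) * (x k + A - m * N - B) = q * x k + q * A - q * m * N - q * B := by ring
  rw [abs_le]
  constructor
  · by_contra hcon
    have h3 : x k + (A : ℤ) - m * N - B ≤ -c - 1 := by omega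
    have h4 := mul_le_mul_of_nonneg_left h3 hq'.le
    rw [e1] at h4
    have e2 : (q : ℤ) * (-c - 1) = -(q * c) - q := by ring
    rw [e2] at h4
    linarith
  · by_contra hcon
    have h3 : (c : ℤ) + 1 ≤ x k + (A : ℤ) - m * N - B := by omega
    have h4 := mul_le_mul_of_nonneg_left h3 hq'.le
    rw [e1] at h4
    have e2 : (q : ℤ) * (c + 1) = q * c + q := by ring
    rw [e2] at h4
    linarith

theorem map_w {a : ℤ} {R' : Type*} [CommRing R'] (φ : R a →+* R') (y : ℤ) :
    φ (w a y) = ((Units.map (φ : R a →* R') (wu a) ^ y : R'ˣ) : R') := by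
  rw [← map_zpow]
  rfl

/-- The action of the matrix on the vector of the powers. -/
theorem key {ι : Type*} {a : ℤ} {N q : ℕ} {σ : ℤˣ} {I : Finset ι} {b : ι → R a} {x α : ι → ℤ}
    (hq : 0 < q) {R' : Type*} [CommRing R'] (φ : R a →+* R') (θ : R'ˣ)
    (hθ : Units.map (φ : R a →* R') (wu a) ^ N * θ ^ q = Units.map (Int.castRingHom R' : ℤ →* R') σ)
    (j : Fin q) :
    ∑ i : Fin q, φ (mat a N q σ I b x α i j) *
      ((Units.map (φ : R a →* R') (wu a) ^ ((i : ℕ) * N / q) * θ ^ (i : ℕ) : R'ˣ) : R') =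
      ((Units.map (φ : R a →* R') (wu a) ^ ((j : ℕ) * N / q) * θ ^ (j : ℕ) : R'ˣ) : R') *
        ∑ k ∈ I, φ (b k) * ((Units.map (φ : R a →* R') (wu a) ^ x k * θ ^ α k : R'ˣ) : R') := by
  have hq' : (0 : ℤ) < q := by exact_mod_cast hq
  set E := Units.map (φ : R a →* R') (wu a) with hE
  set σ' := Units.map (Int.castRingHom R' : ℤ →* R') σ with hσ'
  have h1 : ∀ i : Fin q, φ (mat a N q σ I b x α i j) * ((E ^ ((i : ℕ) * N / q) * θ ^ (i : ℕ) : R'ˣ) :
      R') = ∑ k ∈ I, if ((α k + j) % q).toNat = i then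
        φ (b k) * ((σ' ^ ((α k + (j : ℕ)) / q) * E ^ (ex N q x α k j) *
          (E ^ (((α k + j) % q).toNat * N / q) * θ ^ ((α k + j) % q).toNat) : R'ˣ) : R')
        else 0 := by
    intro i
    unfold mat
    rw [map_sum, Finset.sum_mul]
    refine Finset.sum_congr rfl fun k _ => ?_
    split_ifs with h
    · rw [map_mul, map_mul, map_w, ← h]
      have h2 : φ ((((σ ^ ((α k + (j : ℕ)) / q) : ℤˣ) : ℤ) : R a)) =
          ((σ' ^ ((α k + (j : ℕ)) / q) : R'ˣ) : R') := by
        rw [map_intCast, hσ', ← map_zpow]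
        rfl
      rw [h2]
      push_cast
      ring
    · rw [map_zero, zero_mul]
  rw [Finset.sum_congr rfl fun i _ => h1 i, Finset.sum_comm, Finset.mul_sum]
  refine Finset.sum_congr rfl fun k _ => ?_
  have hr : ((((α k + j) % q).toNat : ℕ) : ℤ) = (α k + j) % q :=
    Int.toNat_of_nonneg (Int.emod_nonneg _ hq'.ne')
  have h2 : ((α k + j) % q).toNat < q := by
    have := Int.emod_lt_of_pos (α k + j) hq'
    omega
  rw [Finset.sum_eq_single (⟨((α k + j) % q).toNat, h2⟩ : Fin q)]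
  · rw [if_pos rfl]
    obtain ⟨r, hr2⟩ : ∃ r, r = ((α k + j) % q).toNat := ⟨_, rfl⟩
    obtain ⟨m, hm⟩ : ∃ m, m = (α k + (j : ℕ)) / q := ⟨_, rfl⟩
    have h3 : (q : ℤ) * m + r = α k + j := by
      rw [hm, hr2, hr]
      exact Int.mul_ediv_add_emod _ _
    have h4 : m * N + ex N q x α k j + (r * N / q : ℕ) = x k + ((j : ℕ) * N / q : ℕ) := by
      unfold ex
      rw [← hm, ← hr2]
      ring
    rw [← hm, ← hr2]
    have h5 : σ' ^ m * E ^ (ex N q x α k j) * (E ^ (r * N / q) * θ ^ r) =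
        E ^ ((j : ℕ) * N / q) * θ ^ (j : ℕ) * (E ^ x k * θ ^ α k) := by
      rw [← hθ, mul_zpow, ← zpow_natCast E N, ← zpow_natCast θ q, ← zpow_mul, ← zpow_mul,
        ← zpow_natCast E (r * N / q), ← zpow_natCast θ r, ← zpow_natCast E ((j : ℕ) * N / q),
        ← zpow_natCast θ (j : ℕ)]
      have e1 : E ^ ((N : ℤ) * m) * θ ^ ((q : ℤ) * m) * E ^ ex N q x α k j *
          (E ^ ((r * N / q : ℕ) : ℤ) * θ ^ (r : ℤ)) =
          E ^ (m * N + ex N q x α k j + (r * N / q : ℕ)) * θ ^ ((q : ℤ) * m + r) := by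
        rw [zpow_add, zpow_add, zpow_add, mul_comm (N : ℤ) m]
        ac_rfl
      rw [e1, h3, h4, zpow_add, zpow_add]
      ac_rfl
    rw [h5]
    push_cast
    ring
  · intro i _ hb
    rw [if_neg]
    intro h
    exact hb (Fin.ext h.symm)
  · intro h
    exact absurd (Finset.mem_univ _) h

/-- The determinant belongs to an ideal. -/
theorem det_mem {ι : Type*} {a : ℤ} {N q : ℕ} {σ : ℤˣ} {I : Finset ι} {b : ι → R a} {x α : ι → ℤ}
    (hq : 0 < q) (J : Ideal (R a)) (h1 : w a N - ((σ : ℤ) : R a) ∈ J)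
    (h2 : ∑ k ∈ I, b k * w a (x k) ∈ J) : (mat a N q σ I b x α).det ∈ J := by
  rw [← Ideal.Quotient.eq_zero_iff_mem] at h1 h2 ⊢
  set φ := Ideal.Quotient.mk J with hφ
  set E := Units.map (φ : R a →* (R a ⧸ J)) (wu a) with hE
  have hθ : E ^ N * (1 : (R a ⧸ J)ˣ) ^ q = Units.map (Int.castRingHom (R a ⧸ J) : ℤ →* (R a ⧸ J)) σ := by
    apply Units.ext
    rw [one_pow, mul_one]
    rw [map_sub, map_w, sub_eq_zero, zpow_natCast] at h1
    rw [h1, map_intCast]
    rfl
  set M' : Matrix (Fin q) (Fin q) (R a ⧸ J) := φ.mapMatrix (mat a N q σ I b x α) with hM'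
  set r : Fin q → (R a ⧸ J) := fun i => ((E ^ ((i : ℕ) * N / q) : (R a ⧸ J)ˣ) : (R a ⧸ J)) with hr
  have h3 : Matrix.vecMul r M' = 0 := by
    funext j
    have h4 := key (I := I) (b := b) (x := x) (α := α) hq φ 1 hθ j
    have h5 : ∑ k ∈ I, φ (b k) * ((E ^ x k * (1 : (R a ⧸ J)ˣ) ^ α k : (R a ⧸ J)ˣ) : (R a ⧸ J)) = 0 := by
      rw [map_sum] at h2
      rw [← h2]
      refine Finset.sum_congr rfl fun k _ => ?_
      rw [one_zpow, mul_one, map_mul, map_w]
    rw [← hE, h5, mul_zero] at h4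
    rw [Pi.zero_apply, ← h4, Matrix.vecMul, dotProduct]
    refine Finset.sum_congr rfl fun i _ => ?_
    simp only [hr, hM', RingHom.mapMatrix_apply, Matrix.map_apply, one_pow, mul_one]
    ring
  have h4 : Matrix.vecMul r (M' * M'.adjugate) = 0 := by
    rw [← Matrix.vecMul_vecMul, h3, Matrix.zero_vecMul]
  rw [Matrix.mul_adjugate, Matrix.vecMul_smul, Matrix.vecMul_one] at h4
  have h5 := congrFun h4 ⟨0, hq⟩
  simp only [Pi.smul_apply, Pi.zero_apply, smul_eq_mul, hr, zero_mul, Nat.zero_div, pow_zero,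
    Units.val_one, mul_one] at h5
  rw [hM', ← RingHom.map_det] at h5
  exact h5

/-- The size of the determinant. -/
theorem det_le {ι : Type*} {a : ℤ} (ha : 1 ≤ a) {N q e : ℕ} {σ : ℤˣ} {I : Finset ι} {b : ι → R a}
    {x α : ι → ℤ} (hq : 0 < q) (hx : ∀ k ∈ I, |(q : ℤ) * x k - α k * N| ≤ e) {s : R a →+* ℝ}
    (hs1 : ∀ y : ℤ, |s (w a y)| ≤ eps a ^ |y|) {u : ℝ} (hu : ∑ k ∈ I, |s (b k)| ≤ u) :
    |s (mat a N q σ I b x α).det| ≤ u ^ q * eps a ^ (e + q) := by
  have he1 := one_lt_eps ha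
  have hu0 : 0 ≤ u := (Finset.sum_nonneg fun _ _ => abs_nonneg _).trans hu
  have hsσ : ∀ z : ℤˣ, |s ((z : ℤ) : R a)| = 1 := by
    intro z
    rw [map_intCast]
    rcases Int.units_eq_one_or z with h | h <;> simp [h]
  have h1 : ∀ j : Fin q, ∑ i, |s (mat a N q σ I b x α i j)| ≤ u * eps a ^ (e / q + 1) := by
    intro j
    have h2 : ∀ i : Fin q, |s (mat a N q σ I b x α i j)| ≤
        ∑ k ∈ I, if ((α k + j) % q).toNat = i then |s (b k)| * eps a ^ (e / q + 1) else 0 := by
      intro i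
      unfold mat
      rw [map_sum]
      refine (Finset.abs_sum_le_sum_abs _ _).trans (Finset.sum_le_sum fun k hk => ?_)
      split_ifs with h
      · rw [map_mul, map_mul, abs_mul, abs_mul, hsσ, mul_one]
        refine mul_le_mul_of_nonneg_left ((hs1 _).trans ?_) (abs_nonneg _)
        have h3 := ex_bounds hq (hx k hk) j
        rw [← zpow_natCast]
        exact zpow_le_zpow_right₀ he1.le h3
      · simp
    refine (Finset.sum_le_sum fun i _ => h2 i).trans ?_
    rw [Finset.sum_comm]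
    refine le_trans (Finset.sum_le_sum (g := fun k => |s (b k)| * eps a ^ (e / q + 1))
      fun k _ => ?_) ?_
    · have hq' : (0 : ℤ) < q := by exact_mod_cast hq
      have h3 : ((α k + j) % q).toNat < q := by
        have := Int.emod_lt_of_pos (α k + j) hq'
        have := Int.emod_nonneg (α k + j) hq'.ne'
        omega
      rw [Finset.sum_eq_single (⟨((α k + j) % q).toNat, h3⟩ : Fin q)]
      · rw [if_pos rfl]
      · intro i _ hb
        rw [if_neg]
        intro h
        exact hb (Fin.ext h.symm)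
      · intro h
        exact absurd (Finset.mem_univ _) h
    · rw [← Finset.sum_mul]
      exact mul_le_mul_of_nonneg_right hu (by positivity)
  have h3 : s (mat a N q σ I b x α).det = (s.mapMatrix (mat a N q σ I b x α)).det := by
    rw [RingHom.map_det]
  rw [h3]
  refine (det_le_prod _).trans ((Finset.prod_le_prod (fun j _ =>
    Finset.sum_nonneg fun i _ => abs_nonneg _) fun j _ => h1 j).trans ?_)
  rw [Finset.prod_const, Finset.card_univ, Fintype.card_fin, mul_pow, ← pow_mul]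
  refine mul_le_mul_of_nonneg_left (pow_le_pow_right₀ he1.le ?_) (pow_nonneg hu0 q)
  have h2 : e / q * q ≤ e := Nat.div_mul_le_self e q
  calc (e / q + 1) * q = e / q * q + q := by ring
    _ ≤ e + q := by omega

end Pool.Agent.K6.H50.SMP
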